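import Pool.Agent.W826.PB.Props
set_option autoImplicit false

/-! PB-2: translation invariance of polluted bootstrap percolation -/

namespace Pool.Agent.W356.PB.Trans
open MeasureTheory Pool.Agent.W826.PB

theorem occ_shift {d : ℕ} (r : ℕ) (ξ η : (Fin d → ℤ) → St) (y : Fin d → ℤ)
    (h : ∀ x, η x = ξ (x + y)) (t : ℕ) : ∀ x, x + y ∈ occ r ξ t ↔ x ∈ occ r η t := by
  induction t with
  | zero =>
    intro x
    change ξ (x + y) = St.occ ↔ η x = St.occ
    rw [h x]
  | succ t ih =>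
    intro x
    change (x + y ∈ occ r ξ t ∨ (ξ (x + y) = St.emp ∧ r ≤ cnt (occ r ξ t) (x + y))) ↔
      (x ∈ occ r η t ∨ (η x = St.emp ∧ r ≤ cnt (occ r η t) x))
    have hc : cnt (occ r ξ t) (x + y) = cnt (occ r η t) x := by
      unfold cnt
      congr 1
      ext j
      simp only [Finset.mem_filter, Finset.mem_univ, true_and]
      have : nb (x + y) j = nb x j + y := by
        unfold nb
        abel
      rw [this]
      exact ih _
    rw [ih x, h x, hc]

theorem main : P_trans := by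
  intro d r p q t y
  obtain ⟨T, hT⟩ : ∃ T : ((Fin d → ℤ) → St) ≃ᵐ ((Fin d → ℤ) → St),
      T = MeasurableEquiv.piCongrLeft (fun _ : Fin d → ℤ => St) (Equiv.subRight y) := ⟨_, rfl⟩
  have hmap : (law d p q).map T = law d p q := by
    rw [hT]
    unfold law
    exact Measure.infinitePi_map_piCongrLeft (μ := fun _ : Fin d → ℤ => siteLaw p q)
      (Equiv.subRight y)
  have hTx : ∀ ξ x, T ξ x = ξ (x + y) := by
    intro ξ x
    rw [hT]
    have h1 := MeasurableEquiv.piCongrLeft_apply_apply (β := fun _ : Fin d → ℤ => St)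
      (e := Equiv.subRight y) (x := ξ) (i := x + y)
    have h2 : (Equiv.subRight y) (x + y) = x := by simp
    rw [h2] at h1
    exact h1
  unfold phiT
  have hset : {ξ | y ∈ occ r ξ t} = T ⁻¹' {ξ : (Fin d → ℤ) → St | (0 : Fin d → ℤ) ∈ occ r ξ t} := by
    ext ξ
    change y ∈ occ r ξ t ↔ (0 : Fin d → ℤ) ∈ occ r (T ξ) t
    have := occ_shift r ξ (T ξ) y (hTx ξ) t 0
    rw [zero_add] at this
    exact this
  rw [hset]
  have h3 : (law d p q) (T ⁻¹' {ξ : (Fin d → ℤ) → St | (0 : Fin d → ℤ) ∈ occ r ξ t}) =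
      (law d p q) {ξ : (Fin d → ℤ) → St | (0 : Fin d → ℤ) ∈ occ r ξ t} := by
    rw [← MeasurableEquiv.map_apply, hmap]
  unfold Measure.real
  rw [h3]

end Pool.Agent.W356.PB.Trans
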