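import Pool.Agent.W763.PB.Stm

/-! Project PB: the estimate in range II. -/

set_option autoImplicit false
open scoped InnerProductSpace

namespace Pool.Agent.W356.PB

open Pool.Agent.W763.PB

theorem norm_sq_smul {H : Type} [NormedAddCommGroup H] [InnerProductSpace ℂ H] (r : ℝ) (v : H) :
    ‖((r : ℝ) : ℂ) • v‖ ^ 2 = r ^ 2 * ‖v‖ ^ 2 := by
  rw [norm_smul, Complex.norm_real, Real.norm_eq_abs, mul_pow, sq_abs]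

theorem norm_sq_Dg {H : Type} [NormedAddCommGroup H] [InnerProductSpace ℂ H] (k : ℝ) (b m : ℕ)
    [NeZero b] [NeZero m] (U : H ≃ₗᵢ[ℂ] H) (f : ZMod (b * m) → ℝ) (n : ℕ) (φ : H) :
    ‖Dg b m f ((Ush b m ^ n) (Jop k b m U φ))‖ ^ 2 =
      (∑ t : ZMod (b * m), (f t) ^ 2 * (Om k b m (t + n)) ^ 2) * ‖φ‖ ^ 2 := by
  rw [PiLp.norm_sq_eq_of_L2, Finset.sum_mul]
  refine Finset.sum_congr rfl fun t _ => ?_
  rw [Dg_apply, Ush_pow_apply, Jop_apply, norm_sq_smul, norm_sq_smul,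
    LinearIsometryEquiv.norm_map]
  ring

theorem g2 : S_R1 → S_R2 → S_Z3 → S_Z5 → S_Z6 → S_J1 → S_J2 → S_J3 → S_J4 → S_G2 := by
  intro r1 r2 z3 z5 z6 j1 j2 j3 j4 k b m _ _ hk hb H _ _ _ U D hL n hn c₁ hc1 hU F
  have hm : 1 ≤ m := Nat.one_le_iff_ne_zero.2 (NeZero.ne m)
  have hm0 : (0 : ℝ) < m := by exact_mod_cast hm
  obtain ⟨x, hx⟩ : ∃ x : ℝ, x = (n : ℝ) / m := ⟨_, rfl⟩
  have hx0 : 0 ≤ x := by rw [hx]; positivity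
  have hx1 : x ≤ 1 := by
    rw [hx, div_le_one hm0]
    exact_mod_cast hn.le
  obtain ⟨hκ0, hκ1, hκ2, -, -, hκ6, -, -⟩ := (r1 k hk).1 x hx0 hx1
  have hz3 := z3 k b m hk hb n hn.le
  rw [← hx] at hz3 hc1
  have hz5 := (z5 k b m hk hb).2.2.2 n hn.le
  have hz6 := z6 k b m hk hb n hn.le
  obtain ⟨J, hJ⟩ : ∃ J, J = Jop k b m U := ⟨_, rfl⟩
  obtain ⟨-, j12, -⟩ := j1 k b m hk hb H U
  obtain ⟨-, j22, -⟩ := j2 k b m hk hb H U n hn.le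
  obtain ⟨j31, j32, -, -⟩ := j3 k b m hk hb H U D hL
  obtain ⟨-, -, -, -, j45, j46⟩ := j4 k b m hk hb H U D hL
  rw [← hx] at j22
  obtain ⟨φ, hφ⟩ : ∃ φ, φ = ContinuousLinearMap.adjoint (Jop k b m U) F := ⟨_, rfl⟩
  obtain ⟨G, hG⟩ : ∃ G, G = F - Jop k b m U φ := ⟨_, rfl⟩
  have hJG : ContinuousLinearMap.adjoint (Jop k b m U) G = 0 := by
    rw [hG, map_sub, j12, ← hφ, sub_self]
  have hF := j45 F
  rw [← hφ, ← hG] at hF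
  have hFG : F = Jop k b m U φ + G := by rw [hG]; abel
  obtain ⟨V, hV⟩ : ∃ V, V = (Ush b m ^ n) (Jop k b m U φ) := ⟨_, rfl⟩
  have hsum : Dop k b m U D ((Ush b m ^ n) F) =
      Dop k b m U D V + Dop k b m U D ((Ush b m ^ n) G) := by
    rw [← map_add, hV, ← map_add, ← hFG]
  -- the part of `G`
  have hG2 : ‖Dop k b m U D ((Ush b m ^ n) G)‖ ^ 2 ≤ 2 * ‖Dop k b m U D G‖ ^ 2 :=
    (j46 n G hJG).trans (mul_le_mul_of_nonneg_right hz5 (sq_nonneg _))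
  -- the part of `V`
  have hlo := hL.lo φ
  have hlo2 : ‖φ‖ ^ 2 ≤ ‖D φ‖ ^ 2 := pow_le_pow_left₀ (norm_nonneg _) hlo 2
  have hV2 : ‖Dop k b m U D V‖ ^ 2 ≤ 9 * ‖D φ‖ ^ 2 := by
    have e1 := j31 V
    have e2 := j32 V
    have e3 := j22 φ
    rw [← hV] at e3
    have e4 : ‖ContinuousLinearMap.adjoint (Jop k b m U) V‖ ^ 2 = (kap k x) ^ 2 * ‖φ‖ ^ 2 := by
      rw [e3, norm_sq_smul, LinearIsometryEquiv.norm_map]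
    have e5 : ‖D (ContinuousLinearMap.adjoint (Jop k b m U) V)‖ ^ 2 =
        (kap k x) ^ 2 * ‖D ((U ^ n) φ)‖ ^ 2 := by
      rw [e3, map_smul, norm_sq_smul]
    have e6 : ‖Dg b m (ee b m) V‖ ^ 2 = (k ^ (-x) * pp k x) * ‖φ‖ ^ 2 := by
      rw [hV, norm_sq_Dg, hz3]
    have e7 : ‖Dg b m (sw k b m) V‖ ^ 2 ≤ 2 * ‖φ‖ ^ 2 := by
      rw [hV, norm_sq_Dg]
      exact mul_le_mul_of_nonneg_right hz6 (sq_nonneg _)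
    have e8 : (kap k x) ^ 2 * ‖D ((U ^ n) φ)‖ ^ 2 ≤ 6 * ‖D φ‖ ^ 2 := by
      have a1 : (kap k x) ^ 2 * ‖D ((U ^ n) φ)‖ ^ 2 ≤ k ^ (-x) * ‖D ((U ^ n) φ)‖ ^ 2 :=
        mul_le_mul_of_nonneg_right hκ2 (sq_nonneg _)
      have a2 : k ^ (-x) * ‖D ((U ^ n) φ)‖ ^ 2 ≤ k ^ (-x) * (c₁ * ‖D φ‖ ^ 2) :=
        mul_le_mul_of_nonneg_left (hU φ) (Real.rpow_nonneg (by linarith) _)
      have a3 : k ^ (-x) * (c₁ * ‖D φ‖ ^ 2) ≤ 6 * ‖D φ‖ ^ 2 := by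
        rw [← mul_assoc]
        exact mul_le_mul_of_nonneg_right hc1 (sq_nonneg _)
      linarith
    have e9 : k * ((k ^ (-x) * pp k x) * ‖φ‖ ^ 2 - (kap k x) ^ 2 * ‖φ‖ ^ 2) ≤ ‖φ‖ ^ 2 := by
      have a1 : k * ((k ^ (-x) * pp k x) * ‖φ‖ ^ 2 - (kap k x) ^ 2 * ‖φ‖ ^ 2) =
          (k * (k ^ (-x) * pp k x - (kap k x) ^ 2)) * ‖φ‖ ^ 2 := by ring
      rw [a1]
      have a2 := mul_le_mul_of_nonneg_right hκ6 (sq_nonneg ‖φ‖)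
      linarith
    rw [e1, e2, e4, e5, e6]
    linarith
  obtain ⟨P, hP⟩ : ∃ P : ℝ, P = ‖Dop k b m U D V‖ := ⟨_, rfl⟩
  obtain ⟨Q, hQ⟩ : ∃ Q : ℝ, Q = ‖Dop k b m U D ((Ush b m ^ n) G)‖ := ⟨_, rfl⟩
  rw [← hP] at hV2
  rw [← hQ] at hG2
  have hPQ : ‖Dop k b m U D ((Ush b m ^ n) F)‖ ≤ P + Q := by
    rw [hsum, hP, hQ]
    exact norm_add_le _ _
  have h1 : ‖Dop k b m U D ((Ush b m ^ n) F)‖ ^ 2 ≤ (P + Q) ^ 2 :=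
    pow_le_pow_left₀ (norm_nonneg _) hPQ 2
  have h2 : (P + Q) ^ 2 ≤ 11 / 9 * P ^ 2 + 11 / 2 * Q ^ 2 := by
    have := sq_nonneg (2 * P - 9 * Q)
    nlinarith
  rw [hF]
  linarith

end Pool.Agent.W356.PB
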