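import Pool.Agent.W763.PB.Stm

/-! Project PB: the sum of the squares of the profile. -/

set_option autoImplicit false

namespace Pool.Agent.W356.PB

open Pool.Agent.W763.PB

theorem z1 : S_R0 → S_R2 → S_Z0 → S_Z1 := by
  intro h0 h2 hz k b m _ _ hk hb
  have hm : 1 ≤ m := Nat.one_le_iff_ne_zero.2 (NeZero.ne m)
  obtain ⟨hq0, hq1, -, -, hq4⟩ := h0 k hk m hm
  obtain ⟨hb64, -⟩ := h2 k b hk hb
  have hb2 : 64 ≤ b := by exact_mod_cast hb64
  obtain ⟨q, hq⟩ : ∃ q : ℝ, q = qq k m := ⟨_, rfl⟩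
  rw [← hq] at hq0 hq1 hq4
  have hk2 : k ^ (-2 : ℝ) < 1 := by
    rw [← hq4]
    exact pow_lt_one₀ hq0.le hq1 (by omega)
  have hqq : q ^ 2 < 1 := pow_lt_one₀ hq0.le hq1 (by norm_num)
  have hc2 : (cc k m) ^ 2 = (1 - q ^ 2) / (1 - k ^ (-2 : ℝ)) := by
    unfold cc
    rw [← hq]
    exact Real.sq_sqrt (div_nonneg (by linarith) (by linarith))
  have e1 : ∀ t : ZMod (b * m), (Om k b m t) ^ 2 =
      (fun j : ℕ => if j < 2 * m then (cc k m) ^ 2 * (q ^ 2) ^ j else 0) t.val := by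
    intro t
    unfold Om
    simp only
    rw [← hq]
    by_cases h : t.val < 2 * m
    · rw [if_pos h, if_pos h, mul_pow, ← pow_mul, ← pow_mul, mul_comm t.val 2]
    · rw [if_neg h, if_neg h]
      norm_num
  rw [Finset.sum_congr rfl fun t _ => e1 t]
  refine (hz (b * m) (fun j : ℕ => if j < 2 * m then (cc k m) ^ 2 * (q ^ 2) ^ j else 0)).trans ?_
  have e2 : ∑ j ∈ Finset.range (b * m), (if j < 2 * m then (cc k m) ^ 2 * (q ^ 2) ^ j else 0) =
      ∑ j ∈ Finset.range (2 * m), (cc k m) ^ 2 * (q ^ 2) ^ j := by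
    rw [← Finset.sum_filter]
    congr 1
    ext j
    rw [Finset.mem_filter, Finset.mem_range, Finset.mem_range]
    constructor
    · exact fun h => h.2
    · intro h
      exact ⟨lt_of_lt_of_le h (Nat.mul_le_mul_right m (by omega)), h⟩
  rw [e2, ← Finset.mul_sum]
  have e3 := mul_neg_geom_sum (q ^ 2) (2 * m)
  rw [← pow_mul, show 2 * (2 * m) = 4 * m by ring, hq4] at e3
  rw [hc2, div_mul_eq_mul_div, e3, div_self]
  linarith

end Pool.Agent.W356.PB
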